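import Pool.Agent.H958.RL.Stm

/-!
# Project RL (helper958): S_ES, the inequality of Efron and Stein (helper397)
-/

set_option autoImplicit false

namespace Pool.Agent.H397.RL.Es

open Finset
open Pool.Agent.H958.RL (Ex S_ES)
open Pool.Agent.W830.RD (Om)

noncomputable section

variable {β : Type} [DecidableEq β]

/-- the expectation over random subsets of `W` -/
def EX (p : ℝ) (W : Finset β) (g : Finset β → ℝ) : ℝ :=
  ∑ E ∈ W.powerset, g E * (p ^ E.card * (1 - p) ^ (W.card - E.card))

theorem EX_add (p : ℝ) (W : Finset β) (g h : Finset β → ℝ) :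
    EX p W (fun E => g E + h E) = EX p W g + EX p W h := by
  unfold EX
  rw [← sum_add_distrib]
  exact sum_congr rfl fun E _ => by ring

theorem EX_smul (p c : ℝ) (W : Finset β) (g : Finset β → ℝ) :
    EX p W (fun E => c * g E) = c * EX p W g := by
  unfold EX
  rw [mul_sum]
  exact sum_congr rfl fun E _ => by ring

theorem EX_const (p c : ℝ) (W : Finset β) : EX p W (fun _ => c) = c := by
  unfold EX
  rw [← mul_sum, Finset.sum_pow_mul_eq_add_pow, add_sub_cancel, one_pow, mul_one]

theorem EX_congr (p : ℝ) (W : Finset β) (g h : Finset β → ℝ) (H : ∀ E, E ⊆ W → g E = h E) :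
    EX p W g = EX p W h := by
  unfold EX
  exact sum_congr rfl fun E hE => by rw [H E (mem_powerset.1 hE)]

theorem EX_mono (p : ℝ) (hp : 0 < p) (hp1 : p < 1) (W : Finset β) (g h : Finset β → ℝ)
    (H : ∀ E, E ⊆ W → g E ≤ h E) : EX p W g ≤ EX p W h := by
  unfold EX
  refine sum_le_sum fun E hE => mul_le_mul_of_nonneg_right (H E (mem_powerset.1 hE)) ?_
  exact mul_nonneg (pow_nonneg hp.le _) (pow_nonneg (by linarith) _)

theorem EX_insert (p : ℝ) (W : Finset β) (a : β) (ha : a ∉ W) (g : Finset β → ℝ) :
    EX p (insert a W) g = p * EX p W (fun E => g (insert a E)) + (1 - p) * EX p W g := by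
  unfold EX
  rw [Finset.sum_powerset_insert ha, add_comm, mul_sum, mul_sum]
  congr 1
  · refine sum_congr rfl fun E hE => ?_
    have hE' := mem_powerset.1 hE
    have haE : a ∉ E := fun h => ha (hE' h)
    rw [card_insert_of_notMem haE, card_insert_of_notMem ha, Nat.add_sub_add_right, pow_succ]
    ring
  · refine sum_congr rfl fun E hE => ?_
    have hE' := card_le_card (mem_powerset.1 hE)
    rw [card_insert_of_notMem ha, Nat.sub_add_comm hE', pow_succ]
    ring

theorem var_eq (p : ℝ) (W : Finset β) (g : Finset β → ℝ) :
    EX p W (fun E => (g E - EX p W g) ^ 2) = EX p W (fun E => g E ^ 2) - EX p W g ^ 2 := by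
  have h : ∀ μ : ℝ, EX p W (fun E => (g E - μ) ^ 2) =
      EX p W (fun E => g E ^ 2) + ((-2 * μ) * EX p W g + μ ^ 2) := by
    intro μ
    rw [← EX_smul, ← EX_const p (μ ^ 2) W, ← EX_add, ← EX_add]
    refine EX_congr p W _ _ fun E _ => ?_
    ring
  rw [h]
  ring

theorem key (p D : ℝ) (hp : 0 < p) (hp1 : p < 1) (hD : 0 ≤ D) (S : Finset β) (W : Finset β) :
    ∀ g : Finset β → ℝ, (∀ E, ∀ e ∈ S, |g (insert e E) - g (E.erase e)| ≤ D) →
      (∀ E, ∀ e, e ∉ S → g (insert e E) = g (E.erase e)) →
      EX p W (fun E => g E ^ 2) - EX p W g ^ 2 ≤ p * D ^ 2 * (S ∩ W).card := by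
  induction W using Finset.induction_on with
  | empty =>
    intro g _ _
    unfold EX
    simp
  | insert a W ha ih =>
    intro g h1 h2
    set h : Finset β → ℝ := fun E => p * g (insert a E) + (1 - p) * g E with hh
    have e1 : EX p W h = EX p (insert a W) g := by
      rw [EX_insert p W a ha, hh, EX_add, EX_smul, EX_smul]
    have e2 : EX p (insert a W) (fun E => g E ^ 2) =
        p * (1 - p) * EX p W (fun E => (g (insert a E) - g E) ^ 2) + EX p W (fun E => h E ^ 2) := by
      rw [EX_insert p W a ha, ← EX_smul, ← EX_smul, ← EX_smul, ← EX_add, ← EX_add]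
      refine EX_congr p W _ _ fun E _ => ?_
      simp only [hh]
      ring
    have i1 : ∀ E, ∀ e ∈ S, |h (insert e E) - h (E.erase e)| ≤ D := by
      intro E e he
      by_cases hea : e = a
      · subst hea
        simp only [hh]
        have q1 : insert e (insert e E) = insert e E := Finset.insert_idem e E
        have q2 : insert e (E.erase e) = insert e E := by
          ext x
          simp only [mem_insert, mem_erase]
          tauto
        rw [q1, q2]
        have q3 : p * g (insert e E) + (1 - p) * g (insert e E) -
            (p * g (insert e E) + (1 - p) * g (E.erase e)) =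
            (1 - p) * (g (insert e E) - g (E.erase e)) := by ring
        rw [q3, abs_mul, abs_of_nonneg (by linarith : (0 : ℝ) ≤ 1 - p)]
        have q4 := h1 E e he
        nlinarith [abs_nonneg (g (insert e E) - g (E.erase e))]
      · simp only [hh]
        have q1 : insert a (insert e E) = insert e (insert a E) := Finset.insert_comm a e E
        have q2 : insert a (E.erase e) = (insert a E).erase e := by
          rw [Finset.erase_insert_of_ne (Ne.symm hea)]
        rw [q1, q2]
        have q3 : p * g (insert e (insert a E)) + (1 - p) * g (insert e E) -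
            (p * g ((insert a E).erase e) + (1 - p) * g (E.erase e)) =
            p * (g (insert e (insert a E)) - g ((insert a E).erase e)) +
              (1 - p) * (g (insert e E) - g (E.erase e)) := by ring
        rw [q3]
        have q4 := h1 E e he
        have q5 := h1 (insert a E) e he
        refine (abs_add_le _ _).trans ?_
        rw [abs_mul, abs_mul, abs_of_pos hp, abs_of_nonneg (by linarith : (0 : ℝ) ≤ 1 - p)]
        nlinarith
    have i2 : ∀ E, ∀ e, e ∉ S → h (insert e E) = h (E.erase e) := by
      intro E e he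
      by_cases hea : e = a
      · subst hea
        simp only [hh]
        have q1 : insert e (insert e E) = insert e E := Finset.insert_idem e E
        have q2 : insert e (E.erase e) = insert e E := by
          ext x
          simp only [mem_insert, mem_erase]
          tauto
        rw [q1, q2, h2 E e he]
      · simp only [hh]
        have q1 : insert a (insert e E) = insert e (insert a E) := Finset.insert_comm a e E
        have q2 : insert a (E.erase e) = (insert a E).erase e := by
          rw [Finset.erase_insert_of_ne (Ne.symm hea)]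
        rw [q1, q2, h2 E e he, h2 (insert a E) e he]
    have i3 := ih h i1 i2
    rw [e1] at i3
    rw [e2]
    by_cases haS : a ∈ S
    · have q1 : (S ∩ insert a W).card = (S ∩ W).card + 1 := by
        rw [Finset.inter_insert_of_mem haS, card_insert_of_notMem]
        exact fun hc => ha (mem_inter.1 hc).2
      have q2 : EX p W (fun E => (g (insert a E) - g E) ^ 2) ≤ D ^ 2 := by
        rw [← EX_const p (D ^ 2) W]
        refine EX_mono p hp hp1 W _ _ fun E hE => ?_
        have q3 := h1 E a haS
        rw [Finset.erase_eq_of_notMem (fun hc => ha (hE hc))] at q3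
        exact sq_le_sq' (abs_le.1 q3).1 (abs_le.1 q3).2
      rw [q1]
      push_cast
      have q4 : 0 ≤ p * (1 - p) := mul_nonneg hp.le (by linarith)
      have q5 : p * (1 - p) * EX p W (fun E => (g (insert a E) - g E) ^ 2) ≤ p * D ^ 2 := by
        refine (mul_le_mul_of_nonneg_left q2 q4).trans ?_
        nlinarith [mul_nonneg hp.le (sq_nonneg D), mul_nonneg (mul_nonneg hp.le hp.le) (sq_nonneg D)]
      linarith
    · have q1 : S ∩ insert a W = S ∩ W := Finset.inter_insert_of_notMem haS
      have q2 : EX p W (fun E => (g (insert a E) - g E) ^ 2) = 0 := by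
        rw [← EX_const p 0 W]
        refine EX_congr p W _ _ fun E hE => ?_
        have q3 := h2 E a haS
        rw [Finset.erase_eq_of_notMem (fun hc => ha (hE hc))] at q3
        rw [q3]
        ring
      rw [q1, q2, mul_zero, zero_add]
      exact i3

theorem main : S_ES := by
  intro p D n S g hp hp1 hS hg hb
  have hEx : ∀ f : Finset (Fin n × Fin n) → ℝ, Ex p n f = EX p (Om n) f := fun f => rfl
  rw [hEx, hEx, var_eq]
  rcases S.eq_empty_or_nonempty with rfl | ⟨e0, he0⟩
  · have hc : ∀ E, g E = g ∅ := by
      intro E
      rw [hg E, Finset.inter_empty]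
    have k1 : EX p (Om n) (fun E => g E ^ 2) = g ∅ ^ 2 := by
      rw [EX_congr p (Om n) (fun E => g E ^ 2) (fun _ => g ∅ ^ 2) (fun E _ => by rw [hc E]), EX_const]
    have k2 : EX p (Om n) g = g ∅ := by
      rw [EX_congr p (Om n) g (fun _ => g ∅) (fun E _ => hc E), EX_const]
    rw [k1, k2]
    simp
  · have hD : 0 ≤ D := (abs_nonneg _).trans (hb ∅ e0 he0)
    have h2 : ∀ E, ∀ e, e ∉ S → g (insert e E) = g (E.erase e) := by
      intro E e he
      rw [hg (insert e E), hg (E.erase e)]
      congr 1
      ext x
      simp only [mem_inter, mem_insert, mem_erase]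
      constructor
      · rintro ⟨hx, hxS⟩
        rcases hx with rfl | hx
        · exact absurd hxS he
        · exact ⟨⟨fun h => he (h ▸ hxS), hx⟩, hxS⟩
      · rintro ⟨⟨-, hx⟩, hxS⟩
        exact ⟨Or.inr hx, hxS⟩
    have h3 := key p D hp hp1 hD S (Om n) g hb h2
    rwa [Finset.inter_eq_left.2 hS] at h3

end

end Pool.Agent.H397.RL.Es
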